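import Pool.Agent.H632.DK.Main

/-!
# A directed, asymmetric and weighted form of Kalai's conjecture, with the exact coefficients

The edges of a tight `r`-tree `T` can be written as `r`-tuples `e 0, …, e (t - 1)` so that `e 0` is
injective and every later tuple arises from an earlier one by replacing one coordinate by a new
vertex (`IsTree`): this is a proper ordering of the edges together with the (unique) proper
`r`-colouring of the vertices, the coordinate of a vertex being its colour.  Let `n_k` be the number
of vertices of colour `k` (`colour t e k`); so `∑_k (n_k - 1) = t - 1`.  The host is a family `D` of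
injective `r`-tuples (a directed `r`-graph), and a copy of `T` has to respect the coordinates.
Let `∂_k D` be the family of the `(r-1)`-tuples obtained by deleting the `k`-th coordinate.

The vectors `b ≥ 0` such that `|D| ≤ ∑_k b_k |∂_k D|` for all `T`-free `D` are exactly those with
`b_k ≥ n_k - 1` for all `k`; and this inequality is equivalent to its form with arbitrary weights on
the tuples, and to the form in which every prescribed edge of `T` has at least
`|D| - ∑_k b_k |∂_k D|` images in `D` under copies of `T`, for all `D`.

Taking for `D` all orderings of the edges of an `r`-graph `H` one gets the bound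
`|H| ≤ (t - 1)/r |∂H|` of Kalai's conjecture.
-/

set_option autoImplicit false

namespace Pool.Agent.Results.MP_b4409b_co.DirectedAsymmetricKalai

open Finset Pool.Agent.H632.DK

/-- `∂_k D`: delete the `k`-th coordinate of all members of `D`. -/
def del {V : Type*} [DecidableEq V] {r : ℕ} (k : Fin r) (D : Finset (Fin r → V)) :
    Finset ({i : Fin r // i ≠ k} → V) :=
  D.image (fun x i => x i)

theorem del_mono {V : Type*} [DecidableEq V] {r : ℕ} (k : Fin r) {D D' : Finset (Fin r → V)}
    (h : D' ⊆ D) : (del k D').card ≤ (del k D).card :=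
  Finset.card_le_card (Finset.image_subset_image h)

theorem bound {V W : Type*} [DecidableEq V] [DecidableEq W] [Fintype V] {r t : ℕ}
    (hr : 1 ≤ r) (ht : 1 ≤ t) (e : ℕ → Fin r → W) (he : IsTree r t e) (D : Finset (Fin r → V))
    (hD : ∀ x ∈ D, Function.Injective x) (hno : ¬ ∃ f : W → V, Copy (· ∈ D) t e f) :
    (D.card : ℝ) ≤ ∑ k, ((colour t e k : ℝ) - 1) * ((del k D).card : ℝ) := by
  rcases isEmpty_or_nonempty V with hV | hV
  · have h1 : D = ∅ := by
      rw [Finset.eq_empty_iff_forall_notMem]
      intro x _
      exact hV.elim (x ⟨0, by omega⟩)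
    rw [h1]
    simp [del]
  · have h := weighted (V := V) hr ht e he (fun x => if x ∈ D then 1 else 0)
      (fun k y => if y ∈ del k D then 1 else 0) ?_ ?_ ?_ ?_
    · simpa using h
    · intro x; split_ifs <;> norm_num
    · intro x hx
      apply hD
      by_contra hxD
      exact hx (by simp [hxD])
    · intro k x
      by_cases hx : x ∈ D
      · have h2 : (fun i : {i : Fin r // i ≠ k} => x i) ∈ del k D :=
          Finset.mem_image_of_mem (fun (x : Fin r → V) (i : {i : Fin r // i ≠ k}) => x i) hx
        rw [if_pos hx, if_pos h2]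
      · rw [if_neg hx]
        split_ifs <;> norm_num
    · rintro ⟨f, f1, f2⟩
      apply hno
      refine ⟨f, f1, fun i hi => ?_⟩
      by_contra hx
      exact f2 i hi (by simp [hx])

section lower

variable {r : ℕ}

/-- the size of the `i`-th part of the complete `r`-partite host -/
def sz (k : Fin r) (q N : ℕ) (i : Fin r) : ℕ := if i = k then q else N

/-- the `i`-th part of the complete `r`-partite host -/
def part (k : Fin r) (q N : ℕ) (i : Fin r) : Finset (Fin r × Fin (q + N)) :=
  univ.filter (fun z => z.1 = i ∧ z.2.val < sz k q N i)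

theorem card_part (k : Fin r) (q N : ℕ) (i : Fin r) : (part k q N i).card = sz k q N i := by
  have h1 : part k q N i =
      (univ.filter (fun z : Fin (q + N) => z.val < sz k q N i)).image (fun z => (i, z)) := by
    ext z
    simp only [part, Finset.mem_filter, Finset.mem_univ, true_and, Finset.mem_image]
    constructor
    · rintro ⟨h1, h2⟩
      exact ⟨z.2, h2, by rw [← h1]⟩
    · rintro ⟨a, ha, rfl⟩
      exact ⟨rfl, ha⟩
  rw [h1, Finset.card_image_of_injective _ (fun a b h => (Prod.mk.inj h).2)]
  have h2 : sz k q N i ≤ q + N := by unfold sz; split_ifs <;> omega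
  have h3 : (univ.filter (fun z : Fin (q + N) => z.val < sz k q N i)).card =
      (Finset.range (sz k q N i)).card := by
    apply Finset.card_bij (fun a _ => a.val)
    · intro a ha
      exact Finset.mem_range.2 (by simpa using ha)
    · intro a _ b _ h
      exact Fin.ext h
    · intro b hb
      have hb' := Finset.mem_range.1 hb
      exact ⟨⟨b, by omega⟩, by simpa using hb', rfl⟩
  rw [h3, Finset.card_range]

/-- the complete `r`-partite host -/
def host (k : Fin r) (q N : ℕ) : Finset (Fin r → Fin r × Fin (q + N)) :=
  Fintype.piFinset (part k q N)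

theorem host_inj (k : Fin r) (q N : ℕ) : ∀ x ∈ host k q N, Function.Injective x := by
  intro x hx i j hij
  have h1 := Fintype.mem_piFinset.1 hx i
  have h2 := Fintype.mem_piFinset.1 hx j
  simp only [part, Finset.mem_filter, Finset.mem_univ, true_and] at h1 h2
  rw [← h1.1, ← h2.1, hij]

theorem card_host (k : Fin r) (q N : ℕ) : (host k q N).card = ∏ i, sz k q N i := by
  unfold host
  rw [Fintype.card_piFinset]
  exact Finset.prod_congr rfl (fun i _ => card_part k q N i)

theorem card_del_host (k j : Fin r) (q N : ℕ) :
    (del j (host k q N)).card ≤ ∏ i : {i : Fin r // i ≠ j}, sz k q N i := by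
  have h1 : del j (host k q N) ⊆
      Fintype.piFinset (fun i : {i : Fin r // i ≠ j} => part k q N i) := by
    intro y hy
    obtain ⟨x, hx, rfl⟩ := Finset.mem_image.1 hy
    rw [Fintype.mem_piFinset]
    intro i
    exact Fintype.mem_piFinset.1 hx i
  refine (Finset.card_le_card h1).trans ?_
  rw [Fintype.card_piFinset]
  exact le_of_eq (Finset.prod_congr rfl (fun i _ => card_part k q N i))

theorem host_free {W : Type*} [DecidableEq W] {t : ℕ} (e : ℕ → Fin r → W) (k : Fin r) (q N : ℕ)
    (hq : q < colour t e k) : ¬ ∃ f : W → Fin r × Fin (q + N), Copy (· ∈ host k q N) t e f := by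
  rintro ⟨f, f1, f2⟩
  have h1 : ((Finset.range t).image (fun i => e i k)).image f ⊆ part k q N k := by
    intro z hz
    obtain ⟨x, hx, rfl⟩ := Finset.mem_image.1 hz
    obtain ⟨i, hi, rfl⟩ := Finset.mem_image.1 hx
    exact Fintype.mem_piFinset.1 (f2 i (Finset.mem_range.1 hi)) k
  have h2 := Finset.card_le_card h1
  rw [card_part, Finset.card_image_of_injOn] at h2
  · have : sz k q N k = q := by simp [sz]
    rw [this] at h2
    unfold colour at hq
    omega
  · intro x hx y hy hxy
    apply f1 _ _ hxy
    · obtain ⟨i, hi, hi2⟩ := Finset.mem_image.1 (Finset.mem_coe.1 hx)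
      exact ⟨i, Finset.mem_range.1 hi, k, hi2⟩
    · obtain ⟨i, hi, hi2⟩ := Finset.mem_image.1 (Finset.mem_coe.1 hy)
      exact ⟨i, Finset.mem_range.1 hi, k, hi2⟩

theorem lower {W : Type*} [DecidableEq W] {t : ℕ} (e : ℕ → Fin r → W) (b : Fin r → ℝ)
    (hb : ∀ k, 0 ≤ b k)
    (h : ∀ (V : Type) [Fintype V] [DecidableEq V] (D : Finset (Fin r → V)),
      (∀ x ∈ D, Function.Injective x) → (¬ ∃ f : W → V, Copy (· ∈ D) t e f) →
      (D.card : ℝ) ≤ ∑ k, b k * ((del k D).card : ℝ)) (k : Fin r) :
    (colour t e k : ℝ) - 1 ≤ b k := by
  rcases Nat.lt_or_ge (colour t e k) 2 with h2 | h2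
  · have : ((colour t e k : ℕ) : ℝ) ≤ 1 := by exact_mod_cast (by omega : colour t e k ≤ 1)
    linarith [hb k]
  · obtain ⟨q, hq⟩ : ∃ q, colour t e k = q + 1 := ⟨colour t e k - 1, by omega⟩
    have hq1 : 1 ≤ q := by omega
    have hqpos : (0:ℝ) < q := by exact_mod_cast hq1
    rw [hq]
    push_cast
    rw [add_sub_cancel_right]
    -- the inequality for the complete `r`-partite hosts
    have key : ∀ N : ℕ, 1 ≤ N → (q : ℝ) ≤ b k + (q * ∑ j, b j) / N := by
      intro N hN
      have hNpos : (0:ℝ) < N := by exact_mod_cast hN
      have h3 := h _ (host k q N) (host_inj k q N) (host_free e k q N (by omega))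
      set P : ℝ := ∏ i : {i : Fin r // i ≠ k}, (sz k q N i : ℝ) with hP
      have hPpos : 0 < P := by
        rw [hP]
        apply Finset.prod_pos
        intro i _
        have : sz k q N i = N := by simp [sz, i.2]
        rw [this]; exact hNpos
      have h4 : ((host k q N).card : ℝ) = q * P := by
        rw [card_host]
        push_cast
        rw [Fintype.prod_eq_mul_prod_subtype_ne (fun i => (sz k q N i : ℝ)) k]
        simp [sz, hP]
      have h5 : ∀ j, b j * ((del j (host k q N)).card : ℝ) ≤
          (if j = k then b k * P else b j * (q * P / N)) := by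
        intro j
        have h6 : ((del j (host k q N)).card : ℝ) ≤
            ∏ i : {i : Fin r // i ≠ j}, (sz k q N i : ℝ) := by
          have := card_del_host k j q N
          exact_mod_cast this
        by_cases hjk : j = k
        · subst hjk
          rw [if_pos rfl]
          exact mul_le_mul_of_nonneg_left h6 (hb j)
        · rw [if_neg hjk]
          apply mul_le_mul_of_nonneg_left _ (hb j)
          refine h6.trans (le_of_eq ?_)
          rw [eq_div_iff hNpos.ne', ← h4, card_host]
          push_cast
          rw [Fintype.prod_eq_mul_prod_subtype_ne (fun i => (sz k q N i : ℝ)) j]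
          have : sz k q N j = N := by simp [sz, hjk]
          rw [this]; ring
      have h7 : (q : ℝ) * P ≤ b k * P + ∑ j, b j * (q * P / N) := by
        refine (le_of_eq h4.symm).trans (h3.trans ((Finset.sum_le_sum (fun j _ => h5 j)).trans ?_))
        rw [← Finset.add_sum_erase _ _ (Finset.mem_univ k), if_pos rfl]
        apply add_le_add le_rfl
        rw [← Finset.add_sum_erase (univ : Finset (Fin r)) (fun j => b j * (q * P / N))
          (Finset.mem_univ k)]
        have h8 : ∑ j ∈ univ.erase k, (if j = k then b k * P else b j * (q * P / N)) =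
            ∑ j ∈ univ.erase k, b j * (q * P / N) := by
          apply Finset.sum_congr rfl
          intro j hj
          rw [if_neg (Finset.ne_of_mem_erase hj)]
        rw [h8]
        have h9 : 0 ≤ b k * (q * P / N) := by
          have := hb k
          positivity
        linarith
      rw [← Finset.sum_mul] at h7
      have h10 : b k * P + (∑ j, b j) * (q * P / N) = (b k + (q * ∑ j, b j) / N) * P := by
        field_simp
      rw [h10] at h7
      exact le_of_mul_le_mul_right h7 hPpos
    by_contra hlt
    rw [not_le] at hlt
    have hgap : 0 < (q : ℝ) - b k := by linarith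
    obtain ⟨N, hN⟩ := exists_nat_gt ((q * ∑ j, b j) / (q - b k))
    have hS : 0 ≤ (q : ℝ) * ∑ j, b j := mul_nonneg hqpos.le (Finset.sum_nonneg fun j _ => hb j)
    have hNpos : (0:ℝ) < N := lt_of_le_of_lt (div_nonneg hS hgap.le) hN
    have hN1 : 1 ≤ N := by
      rcases Nat.eq_zero_or_pos N with h0 | h0
      · rw [h0] at hNpos; simp at hNpos
      · exact h0
    have h11 := key N hN1
    have h12 : (q * ∑ j, b j) / N < (q : ℝ) - b k := by
      rw [div_lt_iff₀ hNpos]
      rw [div_lt_iff₀ hgap] at hN
      linarith
    linarith

end lower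

/-- **Directed, asymmetric and weighted Kalai theorem.**  Let `e 0, …, e (t - 1)` be a coloured
tight `r`-tree with `colour t e k` vertices of colour `k`, and `b` a nonnegative vector. The
following are equivalent.
(1) `|D| ≤ ∑_k b_k |∂_k D|` for all finite families `D` of injective `r`-tuples which contain no
copy of the tree.
(2) Let `c ≥ 0` be a function on the `r`-tuples of elements of a nonempty finite set, which vanishes
at the tuples which are not injective, and let `m k` be functions on the tuples without `k`-th
coordinate with `c x ≤ m k (x without k-th coordinate)`. If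
`∑_x c x > ∑_k b_k ∑_y m k y`, then there is a copy of the tree in the support of `c`.
(3) If `D` is a finite family of injective `r`-tuples then every prescribed edge `e i` of the tree
has at least `|D| - ∑_k b_k |∂_k D|` images in `D` under the copies of the tree.
(4) `b_k ≥ colour t e k - 1` for all `k`. -/
theorem result {W : Type} [DecidableEq W] (r t : ℕ) (hr : 1 ≤ r) (ht : 1 ≤ t)
    (e : ℕ → Fin r → W) (he : IsTree r t e) (b : Fin r → ℝ) (hb : ∀ k, 0 ≤ b k) :
    List.TFAE
      [∀ (V : Type) [Fintype V] [DecidableEq V] (D : Finset (Fin r → V)),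
        (∀ x ∈ D, Function.Injective x) → (¬ ∃ f : W → V, Copy (· ∈ D) t e f) →
        (D.card : ℝ) ≤ ∑ k, b k * ((del k D).card : ℝ),
      ∀ (V : Type) [Fintype V] [Nonempty V] (c : (Fin r → V) → ℝ)
        (m : ∀ k : Fin r, ({i : Fin r // i ≠ k} → V) → ℝ), (∀ x, 0 ≤ c x) →
        (∀ x, c x ≠ 0 → Function.Injective x) → (∀ k x, c x ≤ m k (fun i => x i)) →
        ∑ k, b k * ∑ y, m k y < ∑ x, c x →
        ∃ f : W → V, Copy (fun x => c x ≠ 0) t e f,
      ∀ (V : Type) [Fintype V] [DecidableEq V] (D : Finset (Fin r → V)),
        (∀ x ∈ D, Function.Injective x) → ∀ i, i < t →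
        (D.card : ℝ) - ∑ k, b k * ((del k D).card : ℝ) ≤
          {x : Fin r → V | x ∈ D ∧ ∃ f : W → V, Copy (· ∈ D) t e f ∧ f ∘ e i = x}.ncard,
      ∀ k, (colour t e k : ℝ) - 1 ≤ b k] := by
  tfae_have 1 → 4 := fun h => lower e b hb h
  tfae_have 4 → 2 := by
    intro h V _ _ c m hc hi hm hlt
    by_contra hno
    have h1 := weighted hr ht e he c m hc hi hm hno
    have h2 : ∑ k, ((colour t e k : ℝ) - 1) * ∑ y, m k y ≤ ∑ k, b k * ∑ y, m k y := by
      apply Finset.sum_le_sum
      intro k _
      apply mul_le_mul_of_nonneg_right (h k)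
      have v0 : V := Classical.arbitrary V
      apply Finset.sum_nonneg
      intro y _
      have h3 := hm k (fun i => if h : i ≠ k then y ⟨i, h⟩ else v0)
      have h4 : (fun i : {i : Fin r // i ≠ k} =>
          (fun i => if h : i ≠ k then y ⟨i, h⟩ else v0) (i : Fin r)) = y := by
        funext i
        exact dif_pos i.2
      rw [h4] at h3
      exact (hc _).trans h3
    exact absurd (h1.trans h2) (not_le.2 hlt)
  tfae_have 2 → 1 := by
    intro h V _ _ D hD hno
    rcases isEmpty_or_nonempty V with hV | hV
    · have h1 : D = ∅ := by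
        rw [Finset.eq_empty_iff_forall_notMem]
        intro x _
        exact hV.elim (x ⟨0, by omega⟩)
      rw [h1]
      simp [del]
    · by_contra hlt
      rw [not_le] at hlt
      apply hno
      obtain ⟨f, f1, f2⟩ := h V (fun x => if x ∈ D then 1 else 0)
        (fun k y => if y ∈ del k D then 1 else 0) (by intro x; split_ifs <;> norm_num)
        (by
          intro x hx
          apply hD
          by_contra hxD
          exact hx (by simp [hxD]))
        (by
          intro k x
          by_cases hx : x ∈ D
          · have h2 : (fun i : {i : Fin r // i ≠ k} => x i) ∈ del k D :=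
              Finset.mem_image_of_mem (fun (x : Fin r → V) (i : {i : Fin r // i ≠ k}) => x i) hx
            rw [if_pos hx, if_pos h2]
          · rw [if_neg hx]
            split_ifs <;> norm_num)
        (by simpa using hlt)
      refine ⟨f, f1, fun i hi => ?_⟩
      by_contra hx
      exact f2 i hi (by simp [hx])
  tfae_have 4 → 3 := by
    intro h V _ _ D hD i hi
    classical
    set good : Finset (Fin r → V) :=
      D.filter (fun x => ∃ f : W → V, Copy (· ∈ D) t e f ∧ f ∘ e i = x) with hgood
    set bad : Finset (Fin r → V) :=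
      D.filter (fun x => ¬ ∃ f : W → V, Copy (· ∈ D) t e f ∧ f ∘ e i = x) with hbad
    have hsub : bad ⊆ D := Finset.filter_subset _ _
    have h1 : good.card + bad.card = D.card := Finset.card_filter_add_card_filter_not _
    have h2 : {x : Fin r → V | x ∈ D ∧ ∃ f : W → V, Copy (· ∈ D) t e f ∧ f ∘ e i = x}.ncard =
        good.card := by
      rw [← Set.ncard_coe_finset]
      congr 1
      ext x
      simp [hgood]
    have h3 : ¬ ∃ f : W → V, Copy (· ∈ bad) t e f := by
      rintro ⟨f, f1, f2⟩
      have h4 := f2 i hi
      rw [hbad, Finset.mem_filter] at h4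
      exact h4.2 ⟨f, ⟨f1, fun j hj => hsub (f2 j hj)⟩, rfl⟩
    have h4 := bound hr ht e he bad (fun x hx => hD x (hsub hx)) h3
    have h5 : ∑ k, ((colour t e k : ℝ) - 1) * ((del k bad).card : ℝ) ≤
        ∑ k, b k * ((del k D).card : ℝ) := by
      apply Finset.sum_le_sum
      intro k _
      have h6 : ((del k bad).card : ℝ) ≤ ((del k D).card : ℝ) := by
        exact_mod_cast del_mono k hsub
      exact (mul_le_mul_of_nonneg_right (h k) (Nat.cast_nonneg _)).trans
        (mul_le_mul_of_nonneg_left h6 (hb k))
    rw [h2]
    have h7 : (good.card : ℝ) + (bad.card : ℝ) = (D.card : ℝ) := by exact_mod_cast h1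
    linarith
  tfae_have 3 → 1 := by
    intro h V _ _ D hD hno
    have h1 := h V D hD 0 (by omega)
    have h2 : {x : Fin r → V | x ∈ D ∧ ∃ f : W → V, Copy (· ∈ D) t e f ∧ f ∘ e 0 = x} = ∅ := by
      rw [Set.eq_empty_iff_forall_notMem]
      rintro x ⟨_, f, hf, _⟩
      exact hno ⟨f, hf⟩
    rw [h2, Set.ncard_empty, Nat.cast_zero] at h1
    linarith
  tfae_finish

end Pool.Agent.Results.MP_b4409b_co.DirectedAsymmetricKalai
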