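import Pool.Agent.H802.KalaiEq.Conv

/-! # The equality case of Kalai's conjecture for tight trees

Let `T` be a tight `r`-tree with `t` edges and let `H` be an `r`-graph with shadow `∂H`.  The
`T`-free `r`-graphs with `|H| = ((t - 1) / r) |∂H|` are determined, and so are those with
`|H| = ((t - 1) / r) C(n, r - 1)`. -/

set_option autoImplicit false

namespace Pool.Agent.Results.MP_b4409b_co.EqualityCase

open Finset Pool.Agent.H802.KalaiEq

/-- `e 0, …, e (t - 1)` is a proper ordering of the edges of a tight `r`-tree: all `e i` have `r`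
elements, and every `e i` with `i > 0` has a vertex which is in no earlier edge, the other
vertices of `e i` being contained in one earlier edge. -/
def IsTightTree (r t : ℕ) (e : ℕ → Finset ℕ) : Prop :=
  (∀ i, i < t → (e i).card = r) ∧
    ∀ i, 0 < i → i < t → ∃ v ∈ e i, (∀ j, j < i → v ∉ e j) ∧ ∃ j, j < i ∧ e i \ {v} ⊆ e j

/-- `H` contains a copy of the hypergraph with edges `e 0, …, e (t - 1)`: there is a map which is
injective on the vertices of these edges and sends every one of them to an edge of `H`. -/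
def ContainsCopy {n : ℕ} (H : Finset (Finset (Fin n))) (t : ℕ) (e : ℕ → Finset ℕ) : Prop :=
  ∃ f : ℕ → Fin n, Set.InjOn f {x : ℕ | ∃ i, i < t ∧ x ∈ e i} ∧ ∀ i, i < t → (e i).image f ∈ H

/-- The edges `e 0, …, e (t - 1)` have `r - 1` vertices in common (for `r = 2`: a star). -/
def IsStar (r t : ℕ) (e : ℕ → Finset ℕ) : Prop :=
  ∃ S : Finset ℕ, S.card = r - 1 ∧ ∀ i, i < t → S ⊆ e i

/-- `H` is the union of the complete `r`-graphs on the members of `Q`. -/
def IsUnionOf {n : ℕ} (r : ℕ) (Q H : Finset (Finset (Fin n))) : Prop :=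
  ∀ h : Finset (Fin n), h ∈ H ↔ h.card = r ∧ ∃ A ∈ Q, h ⊆ A

/-- Partial Steiner system: all members of `Q` have `b` points, and two different ones have at most
`r - 2` points in common. -/
def IsPartialSteiner {n : ℕ} (r b : ℕ) (Q : Finset (Finset (Fin n))) : Prop :=
  (∀ A ∈ Q, A.card = b) ∧ ∀ A ∈ Q, ∀ B ∈ Q, A ≠ B → (A ∩ B).card + 2 ≤ r

/-- Steiner system `S(r - 1, b, n)`: all members of `Q` have `b` points, and every set of `r - 1`
points is contained in exactly one member of `Q`. -/
def IsSteiner {n : ℕ} (r b : ℕ) (Q : Finset (Finset (Fin n))) : Prop :=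
  (∀ A ∈ Q, A.card = b) ∧ ∀ s : Finset (Fin n), s.card = r - 1 → ∃! A, A ∈ Q ∧ s ⊆ A

theorem step_of (d t : ℕ) (e : ℕ → Finset ℕ) (he : IsTightTree (d + 1) t e) : Step d e t := by
  intro i hi hit
  obtain ⟨v, hv, hnew, j, hj, hsub⟩ := he.2 i hi hit
  refine ⟨j, hj, e i \ {v}, hsub, ?_, v, ?_, ?_⟩
  · rw [Finset.card_sdiff_of_subset (Finset.singleton_subset_iff.2 hv), he.1 i hit,
      Finset.card_singleton]
    omega
  · rw [Finset.mem_biUnion]
    rintro ⟨k, hk, hvk⟩
    exact hnew k (Finset.mem_range.1 hk) hvk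
  · ext x
    by_cases hx : x = v
    · subst hx; simp [hv]
    · simp [hx]

theorem copy_iff {n : ℕ} (H : Finset (Finset (Fin n))) (t : ℕ) (e : ℕ → Finset ℕ) :
    ContainsCopy H t e ↔ ∃ f : ℕ → Fin n,
      Set.InjOn f (((Finset.range t).biUnion e : Finset ℕ) : Set ℕ) ∧
      ∀ i, i < t → (e i).image f ∈ H := by
  have h : {x : ℕ | ∃ i, i < t ∧ x ∈ e i} =
      (((Finset.range t).biUnion e : Finset ℕ) : Set ℕ) := by
    ext x
    simp
  unfold ContainsCopy
  rw [h]

theorem union_iff {n : ℕ} (r : ℕ) (Q H : Finset (Finset (Fin n))) :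
    IsUnionOf r Q H ↔ H = Q.biUnion (powersetCard r) := by
  unfold IsUnionOf
  constructor
  · intro h
    ext g
    rw [h g, Finset.mem_biUnion]
    constructor
    · rintro ⟨h1, A, hA, h2⟩
      exact ⟨A, hA, Finset.mem_powersetCard.2 ⟨h2, h1⟩⟩
    · rintro ⟨A, hA, h1⟩
      rw [Finset.mem_powersetCard] at h1
      exact ⟨h1.2, A, hA, h1.1⟩
  · intro h g
    rw [h, Finset.mem_biUnion]
    constructor
    · rintro ⟨A, hA, h1⟩
      rw [Finset.mem_powersetCard] at h1
      exact ⟨h1.2, A, hA, h1.1⟩
    · rintro ⟨h1, A, hA, h2⟩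
      exact ⟨A, hA, Finset.mem_powersetCard.2 ⟨h2, h1⟩⟩

/-- Kalai's bound, shadow form -/
theorem bound (d t : ℕ) (ht : 1 ≤ t) (e : ℕ → Finset ℕ) (he : IsTightTree (d + 1) t e) {n : ℕ}
    (H : Finset (Finset (Fin n))) (hH : ∀ h ∈ H, h.card = d + 1) (hno : ¬ ContainsCopy H t e) :
    (d + 1) * H.card ≤ (t - 1) * (Finset.shadow H).card := by
  have hk := Y825.KS.kalai_shadow (d := d) (V := Fin n) e t ht (he.1 0 ht) (step_of d t e he) H hH
    (fun h => hno ((copy_iff H t e).2 h))
  linarith

/-- regularity of the extremal hypergraphs -/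
theorem regular_set (d t : ℕ) (ht : 1 ≤ t) (e : ℕ → Finset ℕ) (he : IsTightTree (d + 1) t e)
    {n : ℕ} (H : Finset (Finset (Fin n))) (hH : ∀ h ∈ H, h.card = d + 1)
    (hno : ¬ ContainsCopy H t e) (heq : (d + 1) * H.card = (t - 1) * (Finset.shadow H).card) :
    ∀ s ∈ Finset.shadow H, (H.filter (fun h => s ⊆ h)).card = t - 1 := by
  intro s hs
  obtain ⟨a, ha, has⟩ := Finset.mem_shadow_iff_insert_mem.1 hs
  have hsc : s.card = d := by
    have := hH _ has
    rw [Finset.card_insert_of_notMem ha] at this
    omega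
  haveI : Nonempty (Fin n) := ⟨a⟩
  rcases Nat.lt_or_ge t 2 with h1 | h2
  · obtain rfl : t = 1 := by omega
    rw [Nat.sub_self, Nat.zero_mul] at heq
    have h3 : H.card = 0 := by
      rcases Nat.mul_eq_zero.1 heq with h | h
      · omega
      · exact h
    rw [Finset.card_eq_zero] at h3
    rw [h3] at has
    simp at has
  · obtain ⟨s', rfl⟩ : ∃ s', t = s' + 2 := ⟨t - 2, by omega⟩
    have hreg := regular H hH e s' (he.1 0 ht) (step_of d _ e he)
      (fun h => hno ((copy_iff H _ e).2 h)) heq.ge
    rw [deg_eq H hH s hsc]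
    obtain ⟨u, hu1, hu2⟩ := H223R3.Kalai.HT.exists_inj_of_card s hsc
    have huS : u ∈ Y825.KS.Sh H d := by
      rw [Y825.KS.mem_Sh]
      exact ⟨hu1, a, by rw [mem_Nb, hu2]; exact has⟩
    have := hreg u huS
    rw [Nb_eq_N, hu2] at this
    exact this

/-- **The equality case of Kalai's conjecture.** -/
theorem result : ∀ (r t : ℕ), 2 ≤ r → 1 ≤ t → ∀ e : ℕ → Finset ℕ, IsTightTree r t e →
    ∀ (n : ℕ) (H : Finset (Finset (Fin n))), (∀ h ∈ H, h.card = r) →
      (¬ IsStar r t e →
        ((¬ ContainsCopy H t e ∧ r * H.card = (t - 1) * (Finset.shadow H).card) ↔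
          ∃ Q, IsPartialSteiner r (r + t - 2) Q ∧ IsUnionOf r Q H) ∧
        ((¬ ContainsCopy H t e ∧ r * H.card = (t - 1) * n.choose (r - 1)) ↔
          ∃ Q, IsSteiner r (r + t - 2) Q ∧ IsUnionOf r Q H)) ∧
      (IsStar r t e →
        ((¬ ContainsCopy H t e ∧ r * H.card = (t - 1) * (Finset.shadow H).card) ↔
          ∀ s ∈ Finset.shadow H, (H.filter (fun h => s ⊆ h)).card = t - 1) ∧
        ((¬ ContainsCopy H t e ∧ r * H.card = (t - 1) * n.choose (r - 1)) ↔
          ∀ s : Finset (Fin n), s.card = r - 1 → (H.filter (fun h => s ⊆ h)).card = t - 1)) := by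
  intro r t hr ht e he n H hH
  obtain ⟨d, rfl⟩ : ∃ d, r = d + 1 := ⟨r - 1, by omega⟩
  have hd1 : d + 1 - 1 = d := by omega
  have hdt : d + 1 + t - 2 = d + (t - 1) := by omega
  rw [hd1, hdt]
  have hstep := step_of d t e he
  have h0 := he.1 0 ht
  -- the two bounds
  have hsub := shadow_all H hH
  have hcard : (Finset.shadow H).card ≤ n.choose d := by
    have := Finset.card_le_card hsub
    rw [Finset.card_powersetCard, Finset.card_univ, Fintype.card_fin] at this
    exact this
  have hfull : 2 ≤ t → ¬ ContainsCopy H t e → (d + 1) * H.card = (t - 1) * n.choose d →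
      (d + 1) * H.card = (t - 1) * (Finset.shadow H).card ∧
        Finset.shadow H = powersetCard d univ := by
    intro ht2 hno heq
    have h1 := bound d t ht e he H hH hno
    have h2 : (t - 1) * (Finset.shadow H).card ≤ (t - 1) * n.choose d :=
      Nat.mul_le_mul_left _ hcard
    have h3 : (t - 1) * n.choose d ≤ (t - 1) * (Finset.shadow H).card := by
      rw [← heq]; exact h1
    refine ⟨by omega, ?_⟩
    apply Finset.eq_of_subset_of_card_le hsub
    rw [Finset.card_powersetCard, Finset.card_univ, Fintype.card_fin]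
    exact Nat.le_of_mul_le_mul_left h3 (by omega)
  constructor
  · intro hns
    have hns' : ¬ ∃ S : Finset ℕ, S.card = d ∧ ∀ i, i < t → S ⊆ e i := hns
    have ht2 : 2 ≤ t := by
      by_contra hcon
      obtain rfl : t = 1 := by omega
      apply hns'
      obtain ⟨S, hS1, hS2⟩ := Finset.exists_subset_card_eq (s := e 0) (n := d) (by omega)
      refine ⟨S, hS2, fun i hi => ?_⟩
      obtain rfl : i = 0 := by omega
      exact hS1
    have hfwd : ¬ ContainsCopy H t e → (d + 1) * H.card = (t - 1) * (Finset.shadow H).card →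
        ∃ Q : Finset (Finset (Fin n)), (∀ A ∈ Q, A.card = d + (t - 1)) ∧
          (∀ A ∈ Q, ∀ B ∈ Q, A ≠ B → (A ∩ B).card < d) ∧
          H = Q.biUnion (powersetCard (d + 1)) := by
      intro hno heq
      rcases Nat.eq_zero_or_pos n with rfl | hn
      · have hHe : H = ∅ := by
          rw [Finset.eq_empty_iff_forall_notMem]
          intro h hh
          have h1 := hH h hh
          have h2 : h.card ≤ Fintype.card (Fin 0) := Finset.card_le_univ h
          rw [Fintype.card_fin] at h2
          omega
        exact ⟨∅, by simp, by simp, by rw [hHe]; simp⟩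
      · haveI : Nonempty (Fin n) := ⟨⟨0, hn⟩⟩
        exact extremal H hH e t ht h0 hstep (fun h => hno ((copy_iff H _ e).2 h)) heq.ge hns'
    have hbwd : ∀ Q : Finset (Finset (Fin n)), (∀ A ∈ Q, A.card = d + (t - 1)) →
        (∀ A ∈ Q, ∀ B ∈ Q, A ≠ B → (A ∩ B).card < d) → H = Q.biUnion (powersetCard (d + 1)) →
        ¬ ContainsCopy H t e ∧ (d + 1) * H.card = (t - 1) * (Finset.shadow H).card := by
      intro Q hQ1 hQ2 hQ3
      constructor
      · rw [copy_iff, hQ3]
        exact union_free Q e t ht h0 hstep hQ1 hQ2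
      · apply double_count H hH
        rw [hQ3]
        exact union_degree Q (t - 1) hQ1 hQ2
    constructor
    · constructor
      · rintro ⟨hno, heq⟩
        obtain ⟨Q, q1, q2, q3⟩ := hfwd hno heq
        refine ⟨Q, ⟨q1, fun A hA B hB hAB => ?_⟩, (union_iff _ _ _).2 q3⟩
        have := q2 A hA B hB hAB
        omega
      · rintro ⟨Q, ⟨q1, q2⟩, q3⟩
        exact hbwd Q q1 (fun A hA B hB hAB => by
          have := q2 A hA B hB hAB
          omega) ((union_iff _ _ _).1 q3)
    · constructor
      · rintro ⟨hno, heq⟩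
        obtain ⟨heq', hsh⟩ := hfull ht2 hno heq
        obtain ⟨Q, q1, q2, q3⟩ := hfwd hno heq'
        refine ⟨Q, ⟨q1, ?_⟩, (union_iff _ _ _).2 q3⟩
        intro s hs
        rw [hd1] at hs
        have h1 : s ∈ Finset.shadow H := by
          rw [hsh, Finset.mem_powersetCard]
          exact ⟨Finset.subset_univ _, hs⟩
        rw [Finset.mem_shadow_iff_exists_mem_card_add_one] at h1
        obtain ⟨g, hg, hsg, -⟩ := h1
        rw [q3] at hg
        obtain ⟨A, hA, hgA⟩ := Finset.mem_biUnion.1 hg
        rw [Finset.mem_powersetCard] at hgA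
        refine ⟨A, ⟨hA, hsg.trans hgA.1⟩, ?_⟩
        rintro B ⟨hB, hsB⟩
        by_contra hne
        have h2 := q2 B hB A hA hne
        have h3 := Finset.card_le_card (Finset.subset_inter hsB (hsg.trans hgA.1))
        omega
      · rintro ⟨Q, ⟨q1, q2⟩, q3⟩
        rw [hd1] at q2
        have hq2 : ∀ A ∈ Q, ∀ B ∈ Q, A ≠ B → (A ∩ B).card < d := by
          intro A hA B hB hAB
          by_contra hcon
          push Not at hcon
          obtain ⟨s, hs1, hs2⟩ := Finset.exists_subset_card_eq hcon
          obtain ⟨C, -, hC⟩ := q2 s hs2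
          apply hAB
          rw [hC A ⟨hA, hs1.trans Finset.inter_subset_left⟩,
            hC B ⟨hB, hs1.trans Finset.inter_subset_right⟩]
        have hq3 := (union_iff _ _ _).1 q3
        obtain ⟨r1, r2⟩ := hbwd Q q1 hq2 hq3
        refine ⟨r1, ?_⟩
        have hsh : Finset.shadow H = powersetCard d univ := by
          apply Finset.Subset.antisymm hsub
          intro s hs
          rw [Finset.mem_powersetCard] at hs
          obtain ⟨A, ⟨hA, hsA⟩, -⟩ := q2 s hs.2
          obtain ⟨x, hx⟩ : (A \ s).Nonempty := by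
            rw [← Finset.card_pos, Finset.card_sdiff_of_subset hsA, q1 A hA, hs.2]
            omega
          rw [Finset.mem_sdiff] at hx
          rw [Finset.mem_shadow_iff_insert_mem]
          refine ⟨x, hx.2, ?_⟩
          rw [hq3, Finset.mem_biUnion]
          refine ⟨A, hA, ?_⟩
          rw [Finset.mem_powersetCard]
          exact ⟨Finset.insert_subset hx.1 hsA, by
            rw [Finset.card_insert_of_notMem hx.2, hs.2]⟩
        rw [r2, hsh, Finset.card_powersetCard, Finset.card_univ, Fintype.card_fin]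
  · intro hst
    have hst' : ∃ S : Finset ℕ, S.card = d ∧ ∀ i, i < t → S ⊆ e i := hst
    constructor
    · constructor
      · rintro ⟨hno, heq⟩
        exact regular_set d t ht e he H hH hno heq
      · intro hreg
        refine ⟨?_, double_count H hH (t - 1) hreg⟩
        rw [copy_iff]
        exact star_free H e t ht h0 hstep hH hst' hreg
    · constructor
      · rintro ⟨hno, heq⟩ s hs
        rcases Nat.lt_or_ge t 2 with h1 | h2
        · obtain rfl : t = 1 := by omega
          rw [Nat.sub_self, Nat.zero_mul] at heq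
          have h3 : H = ∅ := by
            rw [← Finset.card_eq_zero]
            rcases Nat.mul_eq_zero.1 heq with h | h
            · omega
            · exact h
          rw [h3]
          simp
        · obtain ⟨heq', hsh⟩ := hfull h2 hno heq
          apply regular_set d t ht e he H hH hno heq'
          rw [hsh, Finset.mem_powersetCard]
          exact ⟨Finset.subset_univ _, hs⟩
      · intro hreg
        have hreg' : ∀ s ∈ Finset.shadow H, (H.filter (fun h => s ⊆ h)).card = t - 1 := by
          intro s hs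
          exact hreg s (Finset.mem_powersetCard.1 (hsub hs)).2
        refine ⟨?_, ?_⟩
        · rw [copy_iff]
          exact star_free H e t ht h0 hstep hH hst' hreg'
        · rw [double_count H hH (t - 1) hreg']
          rcases Nat.lt_or_ge t 2 with h1 | h2
          · obtain rfl : t = 1 := by omega
            simp
          · have hsh : Finset.shadow H = powersetCard d univ := by
              apply Finset.Subset.antisymm hsub
              intro s hs
              rw [Finset.mem_powersetCard] at hs
              have h3 := hreg s hs.2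
              obtain ⟨h, hh⟩ : (H.filter (fun h => s ⊆ h)).Nonempty := by
                rw [← Finset.card_pos, h3]; omega
              rw [Finset.mem_filter] at hh
              rw [Finset.mem_shadow_iff_exists_mem_card_add_one]
              exact ⟨h, hh.1, hh.2, by rw [hH h hh.1, hs.2]⟩
            rw [hsh, Finset.card_powersetCard, Finset.card_univ, Fintype.card_fin]

end Pool.Agent.Results.MP_b4409b_co.EqualityCase
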