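import Pool.Agent.H152.ESS.Examples

/-! # Stability for the Erdős–Sós bound

Let `k ≥ 3` and let `T` be a tree with `k` edges.  A `T`-free graph on `n` vertices has at most
`(k - 1) n / 2` edges (the case `r = 2` of Kalai's conjecture).  Here the stability problem is
solved for all trees.

* If `T` is not a star and its two colour classes have different sizes, then a `T`-free graph has
  at most `(k - 1) n / 2 - ε m` edges, where `m` is the number of vertices which do not lie in a
  component isomorphic to `K_k`, and `ε > 0` depends on `k` only.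
* If `T` is not a star (the colour classes may have the same size), then in every `T`-free graph
  with at least `((k - 1) / 2 - δ) n` edges all but at most `η n` vertices lie in a component
  isomorphic to `K_k`, or have degree exactly `(k - 1) / 2` and only neighbours of degree `≥ D`.
* For every other tree stability fails: there are arbitrarily large `T`-free graphs with at least
  `((k - 1) / 2 - δ) n` edges and without any component isomorphic to `K_k`. -/

set_option autoImplicit false

namespace Pool.Agent.Results.MP_b4409b_co.Stability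

/-- `v` lies in a component of `G` which is a complete graph on `k` vertices: the vertex set `K` of
this component has `k` elements, and the neighbours of each `x ∈ K` are the other elements
of `K`. -/
def InClique {V : Type} (G : SimpleGraph V) (k : ℕ) (v : V) : Prop :=
  ∃ K : Finset V, v ∈ K ∧ K.card = k ∧ ∀ x ∈ K, ∀ y, G.Adj x y ↔ (y ∈ K ∧ y ≠ x)

/-- `T` is a star: some vertex is adjacent to all others. -/
def IsStar {W : Type} (T : SimpleGraph W) : Prop := ∃ c, ∀ x, x ≠ c → T.Adj c x

/-- `T` is balanced: it has a proper 2-colouring with two classes of the same size. -/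
def Balanced {W : Type} (T : SimpleGraph W) : Prop :=
  ∃ f : W → Bool, (∀ a b, T.Adj a b → f a ≠ f b) ∧
    {x | f x = true}.ncard = {x | f x = false}.ncard

theorem result (k : ℕ) (hk : 3 ≤ k) :
    (∃ ε : ℝ, 0 < ε ∧
      ∀ T : SimpleGraph (Fin (k + 1)), T.IsTree → ¬ IsStar T → ¬ Balanced T →
        ∀ (V : Type) [Fintype V] (G : SimpleGraph V), T.Free G →
          (G.edgeSet.ncard : ℝ) ≤ ((k : ℝ) - 1) / 2 * Fintype.card V -
            ε * ({v | ¬ InClique G k v}.ncard : ℝ)) ∧
    (∀ η : ℝ, 0 < η → ∀ D : ℕ, ∃ δ : ℝ, 0 < δ ∧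
      ∀ T : SimpleGraph (Fin (k + 1)), T.IsTree → ¬ IsStar T →
        ∀ (V : Type) [Fintype V] (G : SimpleGraph V), T.Free G →
          (((k : ℝ) - 1) / 2 - δ) * Fintype.card V ≤ (G.edgeSet.ncard : ℝ) →
          ({v | ¬ InClique G k v ∧ ¬ (2 * (G.neighborSet v).ncard + 1 = k ∧
            ∀ w, G.Adj v w → D ≤ (G.neighborSet w).ncard)}.ncard : ℝ) ≤ η * Fintype.card V) ∧
    (∀ T : SimpleGraph (Fin (k + 1)), T.IsTree → IsStar T ∨ Balanced T →
      ∀ (N : ℕ) (δ : ℝ), 0 < δ →
        ∃ (V : Type) (_ : Fintype V) (G : SimpleGraph V), N ≤ Fintype.card V ∧ T.Free G ∧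
          (((k : ℝ) - 1) / 2 - δ) * Fintype.card V ≤ (G.edgeSet.ncard : ℝ) ∧
          ∀ v, ¬ InClique G k v) := by
  refine ⟨?_, ?_, ?_⟩
  · exact Pool.Agent.H152.ESS.linear k hk
  · exact Pool.Agent.H152.ESS.general k hk
  · rintro T hT (h | h) N δ hδ
    · exact Pool.Agent.H152.ESS.star_ex k hk T h N δ hδ
    · exact Pool.Agent.H152.ESS.bal_ex k hk T hT h N δ hδ

end Pool.Agent.Results.MP_b4409b_co.Stability
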