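import Pool.Agent.H669.Kal.Sharp

/-!
# Kalai's inequality for tight trees in all vertex subsets

Let `T` be a tight `r`-tree with `t` edges and `H` an `r`-uniform hypergraph on `n` vertices, with
shadow `∂H` (the `(r - 1)`-sets contained in edges); `deg U` is the number of the edges which
contain `U`. Kalai's conjecture, in its shadow form, says that `r |H| + |∂H| ≤ t |∂H|` if `H`
contains no copy of `T`; the left-hand side is the sum of `deg U + 1` over the members of `∂H`.

1. For EVERY `H` the vertex sets `W` for which `H` contains no copy of `T` inside `W` satisfy an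
   inequality of LYM type, which is an equality for the complete `r`-graphs.
2. The same for the sets `W` with `m` elements; for `m = n` this is Kalai's inequality.
3. If `D` is the average degree of the `(r - 1)`-sets, then a random set of `m` vertices contains a
   copy of `T` with probability at least `(D + 1) / (n - r + 2) - t / (m - r + 2)`. For `m = n` this
   says that there is a copy if `D > t - 1`, which is Kalai's conjecture.
-/

namespace Pool.Agent.Results.MP_b4409b_co.VertexSubsets

open Finset Pool.Agent.H669.Kal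

open scoped FinsetFamily

open Classical in
/-- **Kalai's inequality in all vertex subsets.** -/
theorem result (r t : ℕ) (hr : 1 ≤ r) (ht : 1 ≤ t) (e : ℕ → Finset ℕ) (he : IsTightTree r t e)
    (n : ℕ) :
    (∀ H : Finset (Finset (Fin n)), (∀ h ∈ H, h.card = r) →
      -- (1) the inequality of LYM type
      (∑ W ∈ univ.filter (fun W => ¬ CopyIn H t e W),
          (∑ U ∈ (∂ H).filter (fun U => U ⊆ W), ((deg H U : ℚ) + 1)) /
            ((n - (r - 1)).choose (W.card - (r - 1)) : ℚ) ≤
        (t : ℚ) * ((n : ℚ) - r + 2) * ((∂ H).card : ℚ)) ∧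
      ∀ m : ℕ, r - 1 ≤ m → m ≤ n →
        -- (2) the sets with `m` elements
        (∑ W ∈ (univ.filter (fun W => ¬ CopyIn H t e W)).filter (fun W => W.card = m),
            ∑ U ∈ (∂ H).filter (fun U => U ⊆ W), (deg H U + 1) ≤
          t * (n - (r - 1) + 1).choose (m - (r - 1) + 1) * (∂ H).card) ∧
        -- (3) the proportion of the sets with `m` elements which contain a copy
        (((r : ℚ) * H.card / (n.choose (r - 1) : ℚ) + 1) / ((n : ℚ) - r + 2) -
            (t : ℚ) / ((m : ℚ) - r + 2)) * (n.choose m : ℚ) ≤
          ((((univ : Finset (Fin n)).powersetCard m).filter (fun W => CopyIn H t e W)).card : ℚ)) ∧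
    -- (4) equality in (1) for the complete `r`-graph
    (∀ H : Finset (Finset (Fin n)), H = (univ : Finset (Fin n)).powersetCard r → r ≤ n →
      r + t ≤ n + 2 →
      ∑ W ∈ univ.filter (fun W => ¬ CopyIn H t e W),
          (∑ U ∈ (∂ H).filter (fun U => U ⊆ W), ((deg H U : ℚ) + 1)) /
            ((n - (r - 1)).choose (W.card - (r - 1)) : ℚ) =
        (t : ℚ) * ((n : ℚ) - r + 2) * ((∂ H).card : ℚ)) := by
  obtain ⟨d, rfl⟩ : ∃ d, r = d + 1 := ⟨r - 1, by omega⟩
  have hd : d + 1 - 1 = d := rfl
  have hn : ((n : ℚ) - ((d + 1 : ℕ) : ℚ) + 2) = (Fintype.card (Fin n) : ℚ) - d + 1 := by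
    rw [Fintype.card_fin]
    push_cast
    ring
  rw [hd, hn]
  refine ⟨fun H hH => ⟨?_, fun m hm1 hm2 => ⟨?_, ?_⟩⟩, ?_⟩
  · have h := lym H hH t ht e he
    rw [Fintype.card_fin] at h ⊢
    exact h
  · have h := layer H hH t ht e he m hm1 (by rw [Fintype.card_fin]; exact hm2)
    rw [Fintype.card_fin] at h
    exact h
  · have h := fraction H hH t ht e he m hm1 (by rw [Fintype.card_fin]; exact hm2)
    have hm : ((m : ℚ) - ((d + 1 : ℕ) : ℚ) + 2) = (m : ℚ) - d + 1 := by
      push_cast
      ring
    rw [hm]
    push_cast
    rw [Fintype.card_fin] at h ⊢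
    exact h
  · rintro H rfl hrn hnt
    have h := lym_complete (V := Fin n) t ht e he (by rw [Fintype.card_fin]; exact hrn)
      (by rw [Fintype.card_fin]; omega)
    rw [Fintype.card_fin] at h ⊢
    exact h

end Pool.Agent.Results.MP_b4409b_co.VertexSubsets
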